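import Mathlib

/-! General facts on context-free grammars: a calculus of languages of sentential forms. -/

namespace Pool.Agent.L7h7.CFUnits

open ContextFreeGrammar

variable {T N : Type}

/-- The language attached to a symbol by an interpretation of the nonterminals. -/
def symLang (I : N → Language T) : Symbol T N → Language T
  | Symbol.terminal t => {[t]}
  | Symbol.nonterminal n => I n

/-- The language attached to a sentential form. -/
def ext (I : N → Language T) (w : List (Symbol T N)) : Language T :=
  (w.map (symLang I)).prod

theorem ext_nil (I : N → Language T) : ext I [] = 1 := rfl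

theorem ext_cons (I : N → Language T) (s : Symbol T N) (w : List (Symbol T N)) :
    ext I (s :: w) = symLang I s * ext I w := by
  simp [ext]

theorem ext_append (I : N → Language T) (u v : List (Symbol T N)) :
    ext I (u ++ v) = ext I u * ext I v := by
  simp [ext]

theorem mem_ext_nil (I : N → Language T) {x : List T} : x ∈ ext I [] ↔ x = [] := by
  rw [ext_nil, Language.mem_one]

theorem mem_ext_terminal (I : N → Language T) (t : T) (w : List (Symbol T N)) {x : List T} :
    x ∈ ext I (Symbol.terminal t :: w) ↔ ∃ y ∈ ext I w, x = t :: y := by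
  rw [ext_cons, Language.mem_mul]
  constructor
  · rintro ⟨p, hp, q, hq, rfl⟩
    have hp' : p = [t] := hp
    subst hp'
    exact ⟨q, hq, rfl⟩
  · rintro ⟨y, hy, rfl⟩
    exact ⟨[t], rfl, y, hy, rfl⟩

theorem mem_ext_nonterminal (I : N → Language T) (n : N) (w : List (Symbol T N)) {x : List T} :
    x ∈ ext I (Symbol.nonterminal n :: w) ↔ ∃ p ∈ I n, ∃ q ∈ ext I w, x = p ++ q := by
  rw [ext_cons, Language.mem_mul]
  constructor
  · rintro ⟨p, hp, q, hq, rfl⟩
    exact ⟨p, hp, q, hq, rfl⟩
  · rintro ⟨p, hp, q, hq, rfl⟩
    exact ⟨p, hp, q, hq, rfl⟩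

theorem mem_ext_map_terminal (I : N → Language T) (x : List T) :
    x ∈ ext I (x.map Symbol.terminal) := by
  induction x with
  | nil => exact (mem_ext_nil I).2 rfl
  | cons t x ih => exact (mem_ext_terminal I t _).2 ⟨x, ih, rfl⟩

theorem ext_mono_produces (g : ContextFreeGrammar T) (I : g.NT → Language T)
    (h : ∀ r ∈ g.rules, ext I r.output ≤ I r.input)
    {u v : List (Symbol T g.NT)} (huv : g.Produces u v) : ext I v ≤ ext I u := by
  obtain ⟨r, hr, hrw⟩ := huv
  obtain ⟨p, q, rfl, rfl⟩ := hrw.exists_parts
  rw [ext_append, ext_append, ext_append, ext_append]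
  refine mul_le_mul' (mul_le_mul' le_rfl ?_) le_rfl
  rw [ext_cons, ext_nil, mul_one]
  exact h r hr

/-- Soundness of an interpretation. -/
theorem sound (g : ContextFreeGrammar T) (I : g.NT → Language T)
    (h : ∀ r ∈ g.rules, ext I r.output ≤ I r.input)
    {n : g.NT} {x : List T}
    (hx : g.Derives [Symbol.nonterminal n] (x.map Symbol.terminal)) : x ∈ I n := by
  have key : ∀ {u v : List (Symbol T g.NT)}, g.Derives u v → ext I v ≤ ext I u := by
    intro u v huv
    induction huv with
    | refl => exact le_rfl
    | tail _ last ih => exact (ext_mono_produces g I h last).trans ih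
  have h1 := key hx (mem_ext_map_terminal I x)
  rw [ext_cons, ext_nil, mul_one] at h1
  exact h1

/-- The language derived from a nonterminal. -/
def der (g : ContextFreeGrammar T) (n : g.NT) : Language T :=
  {x : List T | g.Derives [Symbol.nonterminal n] (x.map Symbol.terminal)}

theorem derives_of_mem_ext (g : ContextFreeGrammar T) (w : List (Symbol T g.NT)) {x : List T}
    (hx : x ∈ ext (der g) w) : g.Derives w (x.map Symbol.terminal) := by
  induction w generalizing x with
  | nil =>
    rw [mem_ext_nil] at hx
    subst hx
    exact Derives.refl _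
  | cons s w ih =>
    cases s with
    | terminal t =>
      rw [mem_ext_terminal] at hx
      obtain ⟨y, hy, rfl⟩ := hx
      exact (ih hy).append_left [Symbol.terminal t]
    | nonterminal n =>
      rw [mem_ext_nonterminal] at hx
      obtain ⟨p, hp, q, hq, rfl⟩ := hx
      have h1 : g.Derives [Symbol.nonterminal n] (p.map Symbol.terminal) := hp
      have h2 := h1.append_right w
      have h3 := (ih hq).append_left (p.map Symbol.terminal)
      rw [List.map_append]
      exact h2.trans h3

/-- Completeness: the derived languages are closed under the rules. -/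
theorem der_closed (g : ContextFreeGrammar T) {r : ContextFreeRule T g.NT} (hr : r ∈ g.rules)
    {x : List T} (hx : x ∈ ext (der g) r.output) : x ∈ der g r.input := by
  have h1 := derives_of_mem_ext g r.output hx
  have h2 : g.Produces [Symbol.nonterminal r.input] r.output :=
    ⟨r, hr, ContextFreeRule.Rewrites.input_output⟩
  exact h2.single.trans h1

end Pool.Agent.L7h7.CFUnits
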