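import Pool.Agent.L7h7.CFUnitsWords

/-! Stacks that can be emptied, and the shape of invertible words. -/

namespace Pool.Agent.L7h7.CFUnits

open Let3 List

theorem sq_eq (n : ℕ) :
    sq n = a :: (replicate n b ++ (c :: a :: (replicate n b ++ [c]))) := by
  simp [sq, blk]

/-- Adjacent letters inside `a bⁿ c a bⁿ c`. -/
theorem blk_adj {n : ℕ} {u v : List Let3} {x y : Let3} (h : blk n = u ++ x :: y :: v) :
    x ≠ c ∧ y ≠ a := by
  have key : ∀ (n : ℕ) (u : List Let3), replicate n b ++ [c] = u ++ x :: y :: v → x ≠ c ∧ y ≠ a := by
    intro n
    induction n with
    | zero =>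
      intro u hu
      cases u with
      | nil => simp at hu
      | cons z u => simp at hu
    | succ n ih =>
      intro u hu
      cases u with
      | nil =>
        simp only [replicate_succ, cons_append, nil_append, cons.injEq] at hu
        obtain ⟨h1, h2⟩ := hu
        refine ⟨by rw [← h1]; decide, ?_⟩
        cases n with
        | zero =>
          simp only [replicate_zero, nil_append, cons.injEq] at h2
          rw [← h2.1]
          decide
        | succ n =>
          simp only [replicate_succ, cons_append, cons.injEq] at h2
          rw [← h2.1]
          decide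
      | cons z u =>
        simp only [replicate_succ, cons_append, cons.injEq] at hu
        exact ih u hu.2
  cases u with
  | nil =>
    simp only [blk, nil_append, cons.injEq] at h
    obtain ⟨h1, h2⟩ := h
    refine ⟨by rw [← h1]; decide, ?_⟩
    cases n with
    | zero =>
      simp only [replicate_zero, nil_append, cons.injEq] at h2
      rw [← h2.1]
      decide
    | succ n =>
      simp only [replicate_succ, cons_append, cons.injEq] at h2
      rw [← h2.1]
      decide
  | cons z u =>
    simp only [blk, cons_append, cons.injEq] at h
    exact key n u h.2

theorem blk_last {n : ℕ} {u : List Let3} {x : Let3} (h : blk n = u ++ [x]) : x = c := by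
  have h1 : blk n = (a :: replicate n b) ++ [c] := by simp [blk]
  rw [h1] at h
  exact (append_singleton_inj.1 h).2.symm

theorem sq_adj {n : ℕ} {u v : List Let3} {x y : Let3} (h : sq n = u ++ x :: y :: v) :
    x = c ↔ y = a := by
  unfold sq at h
  rw [append_eq_append_iff] at h
  rcases h with ⟨w, h1, h2⟩ | ⟨w, h1, h2⟩
  · have := blk_adj h2
    exact ⟨fun e => absurd e this.1, fun e => absurd e this.2⟩
  · cases w with
    | nil =>
      rw [nil_append] at h2
      have h3 : blk n = [] ++ x :: y :: v := by rw [← h2]; rfl
      have := blk_adj h3
      exact ⟨fun e => absurd e this.1, fun e => absurd e this.2⟩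
    | cons z w =>
      simp only [cons_append, cons.injEq] at h2
      obtain ⟨rfl, h2⟩ := h2
      cases w with
      | nil =>
        have hx := blk_last h1
        simp only [blk, nil_append, cons.injEq] at h2
        exact ⟨fun _ => h2.1, fun _ => hx⟩
      | cons z w =>
        simp only [cons_append, cons.injEq] at h2
        obtain ⟨rfl, h2⟩ := h2
        have := blk_adj h1
        exact ⟨fun e => absurd e this.1, fun e => absurd e this.2⟩

theorem sq_last {n : ℕ} {u : List Let3} {x : Let3} (h : sq n = u ++ [x]) : x = c := by
  have h1 : sq n = (blk n ++ a :: replicate n b) ++ [c] := by simp [sq, blk]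
  rw [h1] at h
  exact (append_singleton_inj.1 h).2.symm

theorem run_preserves {P : List Let3 → Prop} (hP : ∀ x s, P s → P (push x s))
    (w : List Let3) {s : List Let3} (h : P s) : P (run w s) := by
  induction w with
  | nil => exact h
  | cons x w ih => exact hP x _ ih

/-- A stack with a factor `x a` with `x ≠ c` keeps it for ever. -/
def BadA (s : List Let3) : Prop := ∃ p x q, s = p ++ x :: a :: q ∧ x ≠ c

theorem badA_push (y : Let3) (s : List Let3) (h : BadA s) : BadA (push y s) := by
  obtain ⟨p, x, q, rfl, hx⟩ := h
  by_cases hex : ∃ r : ℕ × List Let3, y :: (p ++ x :: a :: q) = sq r.1 ++ r.2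
  · obtain ⟨⟨n, t⟩, hp⟩ := hex
    rw [push_cancel hp]
    have hp' : (y :: p) ++ x :: a :: q = sq n ++ t := hp
    rw [append_eq_append_iff] at hp'
    rcases hp' with ⟨w, h1, h2⟩ | ⟨w, h1, h2⟩
    · cases w with
      | nil =>
        rw [nil_append] at h2
        rw [← h2]
        exact ⟨[], x, q, rfl, hx⟩
      | cons z w =>
        simp only [cons_append, cons.injEq] at h2
        obtain ⟨rfl, h2⟩ := h2
        exfalso
        cases w with
        | nil => exact hx (sq_last h1)
        | cons z w =>
          simp only [cons_append, cons.injEq] at h2
          obtain ⟨rfl, h2⟩ := h2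
          exact hx ((sq_adj h1).2 rfl)
    · rw [h2]
      exact ⟨w, x, q, rfl, hx⟩
  · rw [push_stay (fun n t e => hex ⟨(n, t), e⟩)]
    exact ⟨y :: p, x, q, rfl, hx⟩

/-- A stack whose bottom letter is not `c` keeps its bottom letter for ever. -/
def BadEnd (s : List Let3) : Prop := ∃ p x, s = p ++ [x] ∧ x ≠ c

theorem badEnd_push (y : Let3) (s : List Let3) (h : BadEnd s) : BadEnd (push y s) := by
  obtain ⟨p, x, rfl, hx⟩ := h
  by_cases hex : ∃ r : ℕ × List Let3, y :: (p ++ [x]) = sq r.1 ++ r.2
  · obtain ⟨⟨n, t⟩, hp⟩ := hex
    rw [push_cancel hp]
    have hp' : (y :: p) ++ [x] = sq n ++ t := hp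
    rcases eq_nil_or_concat t with rfl | ⟨t', z, rfl⟩
    · rw [append_nil] at hp'
      exact absurd (sq_last hp'.symm) hx
    · rw [concat_eq_append, ← append_assoc] at hp'
      have := (append_singleton_inj.1 hp').2
      exact ⟨t', z, concat_eq_append, by rw [← this]; exact hx⟩
  · rw [push_stay (fun n t e => hex ⟨(n, t), e⟩)]
    exact ⟨y :: p, x, rfl, hx⟩

theorem run_over_c {u : List Let3} (hu : Irr (u ++ [c])) {x : Let3} (hx : x ≠ a)
    (s : List Let3) : run (u ++ [c]) (x :: s) = u ++ c :: x :: s := by
  induction u with
  | nil =>
    rw [nil_append, run_cons, run_nil, push_ne_a (by decide)]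
    rfl
  | cons y u ih =>
    rw [cons_append, run_cons, ih hu.of_cons, push_stay]
    · rfl
    · intro n t e
      have e' : (y :: (u ++ [c])) ++ (x :: s) = sq n ++ t := by
        rw [← e]
        simp
      rw [append_eq_append_iff] at e'
      rcases e' with ⟨w, h1, h2⟩ | ⟨w, h1, h2⟩
      · cases w with
        | nil =>
          rw [append_nil] at h1
          exact hu n [] [] (by simp only [nil_append, append_nil]; rw [h1]; rfl)
        | cons z w =>
          simp only [cons_append, cons.injEq] at h2
          obtain ⟨rfl, h2⟩ := h2
          have h3 : sq n = (y :: u) ++ c :: x :: w := by rw [h1]; simp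
          exact hx ((sq_adj h3).1 rfl)
      · exact hu n [] w (by rw [nil_append, ← h1]; rfl)

/-- The shape of an invertible word. -/
structure Good (t : List Let3) : Prop where
  first : ∀ x v, t = x :: v → x = a
  after : ∀ u x v, t = u ++ c :: x :: v → x = a
  before : ∀ u x v, t = u ++ x :: a :: v → x = c
  last : ∀ u x, t = u ++ [x] → x = c

theorem good_of_run {t s w : List Let3} (ht : Irr t) (h1 : run t s = []) (h2 : run w t = []) :
    Good t := by
  refine ⟨?_, ?_, ?_, ?_⟩
  · rintro x v rfl
    by_contra hx
    rw [run_cons, push_ne_a hx] at h1
    simp at h1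
  · rintro u x v rfl
    by_contra hx
    have e : u ++ c :: x :: v = (u ++ [c]) ++ x :: v := by simp
    rw [e, run_append, run_cons, push_ne_a hx, run_over_c _ hx] at h1
    · simp at h1
    · intro n p q e'
      apply ht n p (q ++ x :: v)
      rw [e, e']
      simp
  · rintro u x v rfl
    by_contra hx
    have hb : BadA (run w (u ++ x :: a :: v)) :=
      run_preserves badA_push w ⟨u, x, v, rfl, hx⟩
    rw [h2] at hb
    obtain ⟨p, x, q, e, -⟩ := hb
    simp at e
  · rintro u x rfl
    by_contra hx
    have hb : BadEnd (run w (u ++ [x])) := run_preserves badEnd_push w ⟨u, x, rfl, hx⟩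
    rw [h2] at hb
    obtain ⟨p, x, e, -⟩ := hb
    simp at e

theorem exists_run_b (l : List Let3) : ∃ n r, l = replicate n b ++ r ∧ ∀ v, r ≠ b :: v := by
  induction l with
  | nil => exact ⟨0, [], rfl, by simp⟩
  | cons x l ih =>
    by_cases hx : x = b
    · obtain ⟨n, r, rfl, hr⟩ := ih
      exact ⟨n + 1, r, by rw [hx, replicate_succ]; rfl, hr⟩
    · exact ⟨0, x :: l, rfl, by simp [hx]⟩

theorem Good.exists_blks (k : ℕ) : ∀ t : List Let3, t.length ≤ k → Good t →
    ∃ ns : List ℕ, t = (ns.map blk).flatten := by
  induction k with
  | zero =>
    intro t ht _
    have : t = [] := length_eq_zero_iff.1 (by omega)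
    exact ⟨[], by simp [this]⟩
  | succ k ih =>
    intro t ht hg
    cases t with
    | nil => exact ⟨[], by simp⟩
    | cons x t =>
      have hx := hg.first x t rfl
      subst hx
      obtain ⟨n, r, rfl, hr⟩ := exists_run_b t
      cases r with
      | nil =>
        exfalso
        cases n with
        | zero => exact absurd (hg.last [] a (by simp)) (by decide)
        | succ n =>
          have e : a :: (replicate (n + 1) b ++ []) = (a :: replicate n b) ++ [b] := by
            rw [append_nil, replicate_add]
            rfl
          exact absurd (hg.last _ b e) (by decide)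
      | cons y v =>
        cases y with
        | a =>
          exfalso
          cases n with
          | zero => exact absurd (hg.before [] a v (by simp)) (by decide)
          | succ n =>
            have e : a :: (replicate (n + 1) b ++ a :: v) =
                (a :: replicate n b) ++ b :: a :: v := by
              rw [replicate_add]
              simp
            exact absurd (hg.before _ b v e) (by decide)
        | b => exact absurd rfl (hr v)
        | c =>
          have e : a :: (replicate n b ++ c :: v) = blk n ++ v := by simp [blk]
          have hv : Good v := by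
            refine ⟨?_, ?_, ?_, ?_⟩
            · rintro x v' rfl
              exact hg.after (a :: replicate n b) x v' (by simp)
            · rintro u x v' rfl
              exact hg.after (blk n ++ u) x v' (by rw [e, append_assoc])
            · rintro u x v' rfl
              exact hg.before (blk n ++ u) x v' (by rw [e, append_assoc])
            · rintro u x rfl
              exact hg.last (blk n ++ u) x (by rw [e, append_assoc])
          have hlen : v.length ≤ k := by
            simp only [length_cons, length_append, length_replicate] at ht
            omega
          obtain ⟨ns, hns⟩ := ih v hlen hv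
          refine ⟨n :: ns, ?_⟩
          rw [e, hns]
          simp

/-- Stacks without the factor `blk N`. -/
def Free (N : ℕ) (s : List Let3) : Prop := ∀ u v, s ≠ u ++ (blk N ++ v)

theorem free_nil (N : ℕ) : Free N [] := by
  intro u v h
  simp [blk] at h

theorem Free.suffix {N : ℕ} {u v : List Let3} (h : Free N (u ++ v)) : Free N v := by
  intro p q e
  exact h (u ++ p) q (by rw [e, append_assoc])

theorem Free.blk {N n : ℕ} (hn : n ≠ N) {s : List Let3} (h : Free N s) :
    Free N (run (blk n) s) := by
  by_cases hex : ∃ t, s = CFUnits.blk n ++ t
  · obtain ⟨t, rfl⟩ := hex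
    rw [run_blk_cancel]
    exact h.suffix
  · rw [run_blk_stay n s (fun t e => hex ⟨t, e⟩)]
    intro u v e
    cases u with
    | nil => exact hn (blk_append_inj e).1
    | cons x u =>
      have e1 : replicate n b ++ c :: s = u ++ (CFUnits.blk N ++ v) := by
        simp only [CFUnits.blk, cons_append, cons.injEq, append_assoc, nil_append] at e
        simpa [CFUnits.blk] using e.2
      clear e hex
      induction n generalizing u with
      | zero =>
        simp only [replicate_zero, nil_append] at e1
        cases u with
        | nil => simp [CFUnits.blk] at e1
        | cons y u =>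
          simp only [cons_append, cons.injEq] at e1
          exact h u v e1.2
      | succ n ih =>
        cases u with
        | nil => simp [CFUnits.blk, replicate_succ] at e1
        | cons y u =>
          simp only [replicate_succ, cons_append, cons.injEq] at e1
          clear ih
          have key : ∀ (n : ℕ) (u : List Let3),
              replicate n b ++ c :: s = u ++ (CFUnits.blk N ++ v) → False := by
            intro n
            induction n with
            | zero =>
              intro u hu
              simp only [replicate_zero, nil_append] at hu
              cases u with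
              | nil => simp [CFUnits.blk] at hu
              | cons y u =>
                simp only [cons_append, cons.injEq] at hu
                exact h u v hu.2
            | succ n ih =>
              intro u hu
              cases u with
              | nil => simp [CFUnits.blk, replicate_succ] at hu
              | cons y u =>
                simp only [replicate_succ, cons_append, cons.injEq] at hu
                exact ih u hu.2
          exact key n u e1.2

theorem Free.blks {N : ℕ} (ns : List ℕ) (hn : ∀ n ∈ ns, n ≠ N) {s : List Let3} (h : Free N s) :
    Free N (run (ns.map CFUnits.blk).flatten s) := by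
  induction ns with
  | nil => exact h
  | cons n ns ih =>
    rw [map_cons, flatten_cons, run_append]
    exact Free.blk (hn n (by simp)) (ih (fun m hm => hn m (by simp [hm])))

/-- The main fact on invertible words. -/
theorem free_of_invertible {w w' : List Let3} (h1 : ∀ s, Irr s → run w (run w' s) = s)
    (h2 : ∀ s, Irr s → run w' (run w s) = s) :
    ∃ N₀, ∀ N, N₀ ≤ N → ∀ s, Irr s → Free N s → Free N (run w s) := by
  have ht : Irr (run w []) := run_irr irr_nil
  have hg : Good (run w []) := by
    refine good_of_run (s := run w' []) (w := w') ht ?_ (h2 [] irr_nil)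
    rw [← run_nf w _ (run_irr irr_nil)]
    exact h1 [] irr_nil
  obtain ⟨ns, hns⟩ := Good.exists_blks _ _ le_rfl hg
  refine ⟨ns.sum + 1, fun N hN s hs hf => ?_⟩
  rw [run_nf w s hs, hns]
  refine Free.blks ns (fun n hn e => ?_) hf
  have := List.single_le_sum (fun x _ => Nat.zero_le x) n hn
  omega

end Pool.Agent.L7h7.CFUnits
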