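import Mathlib

/-! Words and stacks for the monoid generated by `a, b, c` with relations
`(a bⁿ c)² = 1`. -/

namespace Pool.Agent.L7h7.CFUnits

/-- The three letters. -/
inductive Let3 : Type
  | a
  | b
  | c
  deriving DecidableEq, Fintype

open Let3 List

/-- The word `a bⁿ c`. -/
def blk (n : ℕ) : List Let3 := a :: (replicate n b ++ [c])

/-- The word `a bⁿ c a bⁿ c`. -/
def sq (n : ℕ) : List Let3 := blk n ++ blk n

theorem blk_append_inj {n m : ℕ} {s t : List Let3} (h : blk n ++ s = blk m ++ t) :
    n = m ∧ s = t := by
  simp only [blk, cons_append, append_assoc, cons.injEq, true_and,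
    nil_append] at h
  induction n generalizing m with
  | zero =>
    cases m with
    | zero => simpa using h
    | succ m => simp [replicate_succ] at h
  | succ n ih =>
    cases m with
    | zero => simp [replicate_succ] at h
    | succ m =>
      simp only [replicate_succ, cons_append, cons.injEq, true_and] at h
      obtain ⟨h1, h2⟩ := ih h
      exact ⟨by omega, h2⟩

theorem sq_append_inj {n m : ℕ} {s t : List Let3} (h : sq n ++ s = sq m ++ t) :
    n = m ∧ s = t := by
  simp only [sq, append_assoc] at h
  obtain ⟨h1, h2⟩ := blk_append_inj h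
  subst h1
  exact ⟨rfl, (blk_append_inj h2).2⟩

/-- Irreducible words. -/
def Irr (s : List Let3) : Prop := ∀ n u v, s ≠ u ++ (sq n ++ v)

theorem irr_nil : Irr [] := by
  intro n u v h
  simp [sq, blk] at h

theorem Irr.suffix {u v : List Let3} (h : Irr (u ++ v)) : Irr v := by
  intro n p q e
  exact h n (u ++ p) q (by rw [e, append_assoc])

theorem Irr.of_cons {x : Let3} {v : List Let3} (h : Irr (x :: v)) : Irr v :=
  Irr.suffix (u := [x]) h

open Classical in
/-- Push a letter on the left of a stack, cancelling a square block if possible. -/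
noncomputable def push (x : Let3) (s : List Let3) : List Let3 :=
  if h : ∃ p : ℕ × List Let3, x :: s = sq p.1 ++ p.2 then h.choose.2 else x :: s

theorem push_cancel {x : Let3} {s t : List Let3} {n : ℕ} (h : x :: s = sq n ++ t) :
    push x s = t := by
  have hex : ∃ p : ℕ × List Let3, x :: s = sq p.1 ++ p.2 := ⟨(n, t), h⟩
  unfold push
  rw [dif_pos hex]
  have h2 := hex.choose_spec
  exact (sq_append_inj (h.symm.trans h2)).2.symm

theorem push_stay {x : Let3} {s : List Let3} (h : ∀ n t, x :: s ≠ sq n ++ t) :
    push x s = x :: s := by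
  unfold push
  rw [dif_neg]
  rintro ⟨p, hp⟩
  exact h _ _ hp

theorem push_irr {x : Let3} {s : List Let3} (h : Irr s) : Irr (push x s) := by
  by_cases hex : ∃ p : ℕ × List Let3, x :: s = sq p.1 ++ p.2
  · obtain ⟨⟨n, t⟩, hp⟩ := hex
    rw [push_cancel hp]
    simp only [sq, blk, cons_append, cons.injEq] at hp
    rw [hp.2] at h
    exact h.suffix
  · have hex' : ∀ n t, x :: s ≠ sq n ++ t := by
      intro n t e
      exact hex ⟨(n, t), e⟩
    rw [push_stay hex']
    intro n u v e
    cases u with
    | nil => exact hex' n v (by simpa using e)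
    | cons y u =>
      simp only [cons_append, cons.injEq] at e
      exact h n u v e.2

theorem push_of_irr_cons {x : Let3} {s : List Let3} (h : Irr (x :: s)) :
    push x s = x :: s :=
  push_stay fun n t e => h n [] t (by simpa using e)

theorem push_ne_a {x : Let3} (hx : x ≠ a) (s : List Let3) : push x s = x :: s := by
  apply push_stay
  intro n t e
  simp only [sq, blk, cons_append, cons.injEq] at e
  exact hx e.1

/-- Push a whole word, from right to left. -/
noncomputable def run (w s : List Let3) : List Let3 := w.foldr push s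

@[simp] theorem run_nil (s : List Let3) : run [] s = s := rfl

@[simp] theorem run_cons (x : Let3) (w s : List Let3) : run (x :: w) s = push x (run w s) := rfl

theorem run_append (u v s : List Let3) : run (u ++ v) s = run u (run v s) := by
  simp [run]

theorem run_irr {w s : List Let3} (h : Irr s) : Irr (run w s) := by
  induction w with
  | nil => exact h
  | cons x w ih => exact push_irr ih

theorem run_of_irr {w s : List Let3} (h : Irr (w ++ s)) : run w s = w ++ s := by
  induction w with
  | nil => rfl
  | cons x w ih =>
    rw [run_cons, ih h.of_cons]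
    exact push_of_irr_cons h

theorem run_replicate_b (n : ℕ) (s : List Let3) :
    run (replicate n b) s = replicate n b ++ s := by
  induction n with
  | zero => rfl
  | succ n ih =>
    rw [replicate_succ, run_cons, ih, push_ne_a (by decide)]
    rfl

theorem run_blk (n : ℕ) (s : List Let3) :
    run (blk n) s = push a (replicate n b ++ c :: s) := by
  unfold blk
  rw [run_cons, run_append, run_cons, run_nil, push_ne_a (x := c) (by decide), run_replicate_b]

theorem run_blk_cancel (n : ℕ) (s : List Let3) : run (blk n) (blk n ++ s) = s := by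
  rw [run_blk]
  apply push_cancel (n := n)
  simp [sq, blk]

theorem run_blk_stay (n : ℕ) (s : List Let3) (h : ∀ t, s ≠ blk n ++ t) :
    run (blk n) s = blk n ++ s := by
  rw [run_blk, push_stay]
  · simp [blk]
  · intro m t e
    have e' : blk n ++ s = blk m ++ (blk m ++ t) := by
      rw [sq, append_assoc] at e
      rw [← e]
      simp [blk]
    obtain ⟨h1, h2⟩ := blk_append_inj e'
    subst h1
    exact h t h2

theorem run_sq (n : ℕ) {s : List Let3} (hs : Irr s) : run (sq n) s = s := by
  unfold sq
  rw [run_append]
  by_cases h : ∃ t, s = blk n ++ t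
  · obtain ⟨t, rfl⟩ := h
    rw [run_blk_cancel]
    apply run_blk_stay
    rintro t' rfl
    exact hs n [] t' (by simp [sq])
  · have h' : ∀ t, s ≠ blk n ++ t := fun t e => h ⟨t, e⟩
    rw [run_blk_stay n s h', run_blk_cancel]

/-! ### Classes of words -/

/-- Words acting as the identity on irreducible stacks. -/
def Triv (x : List Let3) : Prop := ∀ s, Irr s → run x s = s

/-- Words acting as `bⁿ c a bⁿ` for some `n`. -/
def MidW (x : List Let3) : Prop :=
  ∃ n, ∀ s, Irr s → run x s = run (replicate n b ++ c :: a :: replicate n b) s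

theorem triv_nil : Triv [] := fun _ _ => rfl

theorem Triv.append {x y : List Let3} (hx : Triv x) (hy : Triv y) : Triv (x ++ y) := by
  intro s hs
  rw [run_append, hy s hs, hx s hs]

theorem MidW.wrap {m : List Let3} (hm : MidW m) : Triv (a :: (m ++ [c])) := by
  obtain ⟨n, hn⟩ := hm
  intro s hs
  have h1 : Irr (run [c] s) := run_irr hs
  rw [run_cons, run_append, hn _ h1, ← run_append, ← run_cons]
  have : a :: ((replicate n b ++ c :: a :: replicate n b) ++ [c]) = sq n := by
    simp [sq, blk]
  rw [this]
  exact run_sq n hs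

theorem midW_base {x y z : List Let3} (hx : Triv x) (hy : Triv y) (hz : Triv z) :
    MidW (x ++ c :: (y ++ a :: z)) := by
  refine ⟨0, fun s hs => ?_⟩
  rw [run_append, run_cons, run_append, run_cons, hz s hs]
  have h1 : Irr (push a s) := push_irr hs
  rw [hy _ h1]
  have h2 : Irr (push c (push a s)) := push_irr h1
  rw [hx _ h2]
  simp

theorem midW_step {x m z : List Let3} (hx : Triv x) (hm : MidW m) (hz : Triv z) :
    MidW (x ++ b :: (m ++ b :: z)) := by
  obtain ⟨n, hn⟩ := hm
  refine ⟨n + 1, fun s hs => ?_⟩
  have h1 : Irr (push b s) := push_irr hs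
  rw [run_append, run_cons, run_append, run_cons, hz s hs]
  have h3 : run m (push b s) = run (replicate n b ++ c :: a :: replicate n b) (push b s) :=
    hn _ h1
  rw [h3]
  have h2 : Irr (push b (run (replicate n b ++ c :: a :: replicate n b) (push b s))) :=
    push_irr (run_irr h1)
  rw [hx _ h2]
  have e : replicate (n + 1) b ++ c :: a :: replicate (n + 1) b =
      b :: ((replicate n b ++ c :: a :: replicate n b) ++ [b]) := by
    have : replicate (n + 1) b = replicate n b ++ [b] := by
      rw [replicate_add]
      rfl
    conv_lhs =>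
      rhs
      rw [this]
    simp [replicate_succ]
  rw [e, run_cons, run_append _ [b]]
  rfl

/-! ### Insertion of trivial words -/

/-- `Ins P z x`: the word `x` is `z` with words of the class `P` inserted. -/
inductive Ins (P : List Let3 → Prop) : List Let3 → List Let3 → Prop
  | nil {e : List Let3} (h : P e) : Ins P [] e
  | cons {e x z : List Let3} {l : Let3} (h : P e) (hx : Ins P z x) : Ins P (l :: z) (e ++ l :: x)

theorem Ins.append_one {P : List Let3 → Prop} (happ : ∀ x y, P x → P y → P (x ++ y))
    {e x z : List Let3} (he : P e) (h : Ins P z x) : Ins P z (e ++ x) := by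
  cases h with
  | nil h => exact Ins.nil (happ _ _ he h)
  | cons h hx =>
    rw [← append_assoc]
    exact Ins.cons (happ _ _ he h) hx

theorem Ins.split {P : List Let3 → Prop} (hnil : P []) {z₁ z₂ x : List Let3}
    (h : Ins P (z₁ ++ z₂) x) : ∃ x₁ x₂, x = x₁ ++ x₂ ∧ Ins P z₁ x₁ ∧ Ins P z₂ x₂ := by
  induction z₁ generalizing x with
  | nil => exact ⟨[], x, rfl, Ins.nil hnil, h⟩
  | cons l z₁ ih =>
    cases h with
    | cons he hx =>
      obtain ⟨x₁, x₂, rfl, h1, h2⟩ := ih hx
      exact ⟨_ ++ l :: x₁, x₂, by simp, Ins.cons he h1, h2⟩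

theorem Ins.snoc {P : List Let3 → Prop} {z x : List Let3} {l : Let3}
    (h : Ins P (z ++ [l]) x) : ∃ x₁ g, x = x₁ ++ l :: g ∧ Ins P z x₁ ∧ P g := by
  induction z generalizing x with
  | nil =>
    cases h with
    | cons he hx =>
      cases hx with
      | nil hg => exact ⟨_, _, rfl, Ins.nil he, hg⟩
  | cons y z ih =>
    cases h with
    | cons he hx =>
      obtain ⟨x₁, g, rfl, h1, h2⟩ := ih hx
      exact ⟨_ ++ y :: x₁, g, by simp, Ins.cons he h1, h2⟩

theorem Ins.mid {P Q : List Let3 → Prop}
    (hbase : ∀ x y z, P x → P y → P z → Q (x ++ c :: (y ++ a :: z)))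
    (hstep : ∀ x m z, P x → Q m → P z → Q (x ++ b :: (m ++ b :: z)))
    (n : ℕ) {m : List Let3} (h : Ins P (replicate n b ++ c :: a :: replicate n b) m) : Q m := by
  induction n generalizing m with
  | zero =>
    simp only [replicate_zero, nil_append] at h
    cases h with
    | cons h1 h =>
      cases h with
      | cons h2 h =>
        cases h with
        | nil h3 => exact hbase _ _ _ h1 h2 h3
  | succ n ih =>
    have e : replicate (n + 1) b ++ c :: a :: replicate (n + 1) b =
        b :: ((replicate n b ++ c :: a :: replicate n b) ++ [b]) := by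
      have : replicate (n + 1) b = replicate n b ++ [b] := by
        rw [replicate_add]
        rfl
      conv_lhs =>
        rhs
        rw [this]
      simp [replicate_succ]
    rw [e] at h
    cases h with
    | cons h1 h =>
      obtain ⟨x₁, g, rfl, h2, h3⟩ := h.snoc
      exact hstep _ _ _ h1 (ih h2) h3

theorem Ins.sq {P Q : List Let3 → Prop}
    (happ : ∀ x y, P x → P y → P (x ++ y))
    (hwrap : ∀ m, Q m → P (a :: (m ++ [c])))
    (hbase : ∀ x y z, P x → P y → P z → Q (x ++ c :: (y ++ a :: z)))
    (hstep : ∀ x m z, P x → Q m → P z → Q (x ++ b :: (m ++ b :: z)))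
    (n : ℕ) {x : List Let3} (h : Ins P (sq n) x) : P x := by
  have e : CFUnits.sq n = a :: ((replicate n b ++ c :: a :: replicate n b) ++ [c]) := by
    simp [CFUnits.sq, blk]
  rw [e] at h
  cases h with
  | cons h1 h =>
    obtain ⟨x₁, g, rfl, h2, h3⟩ := h.snoc
    have hm := Ins.mid hbase hstep n h2
    have h4 := hwrap _ hm
    have h5 := happ _ _ (happ _ _ h1 h4) h3
    simpa using h5

theorem ins_nf {P Q : List Let3 → Prop} (hnil : P [])
    (happ : ∀ x y, P x → P y → P (x ++ y))
    (hwrap : ∀ m, Q m → P (a :: (m ++ [c])))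
    (hbase : ∀ x y z, P x → P y → P z → Q (x ++ c :: (y ++ a :: z)))
    (hstep : ∀ x m z, P x → Q m → P z → Q (x ++ b :: (m ++ b :: z)))
    (x : List Let3) : Ins P (run x []) x := by
  induction x with
  | nil => exact Ins.nil hnil
  | cons l x ih =>
    rw [run_cons]
    have h1 : Ins P (l :: run x []) ([] ++ l :: x) := Ins.cons hnil ih
    rw [nil_append] at h1
    by_cases hex : ∃ p : ℕ × List Let3, l :: run x [] = CFUnits.sq p.1 ++ p.2
    · obtain ⟨⟨n, t⟩, hp⟩ := hex
      rw [push_cancel hp]
      rw [hp] at h1
      obtain ⟨x₁, x₂, e, h2, h3⟩ := h1.split hnil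
      rw [e]
      exact Ins.append_one happ (Ins.sq happ hwrap hbase hstep n h2) h3
    · rw [push_stay (fun n t e => hex ⟨(n, t), e⟩)]
      exact h1

/-- Inserting trivial words does not change the action. -/
theorem ins_run {z x : List Let3} (h : Ins Triv z x) : ∀ s, Irr s → run x s = run z s := by
  induction h with
  | nil h => exact h
  | cons h hx ih =>
    intro s hs
    rw [run_append, h _ (run_irr hs), run_cons, run_cons, ih s hs]

theorem run_nf (x : List Let3) : ∀ s, Irr s → run x s = run (run x []) s :=
  ins_run (ins_nf (P := Triv) (Q := MidW) triv_nil (fun _ _ => Triv.append)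
    (fun _ => MidW.wrap) (fun _ _ _ => midW_base) (fun _ _ _ => midW_step) x)

end Pool.Agent.L7h7.CFUnits
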