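import Pool.Agent.L7h7.CFUnitsGrammar
import Pool.Agent.L7h7.CFUnitsWords

/-! The context-free grammar for the word problem. -/

namespace Pool.Agent.L7h7.CFUnits

open Let3 List

/-- Nonterminals. -/
inductive NT5 : Type
  | W
  | E
  | F
  | E'
  | F'
  deriving DecidableEq, Fintype

open NT5

/-- Terminal symbol of a letter. -/
def tm (l : Let3) : Symbol (Option Let3) NT5 := Symbol.terminal (some l)

/-- The separator. -/
def sep : Symbol (Option Let3) NT5 := Symbol.terminal none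

/-- Nonterminal symbol. -/
def nt (n : NT5) : Symbol (Option Let3) NT5 := Symbol.nonterminal n

/-- The sixteen rules. -/
def ruleList : List (ContextFreeRule (Option Let3) NT5) :=
  [⟨W, [sep]⟩, ⟨W, [nt E, nt W]⟩, ⟨W, [nt W, nt E']⟩,
    ⟨W, [tm a, nt W, tm a]⟩, ⟨W, [tm b, nt W, tm b]⟩, ⟨W, [tm c, nt W, tm c]⟩,
    ⟨E, []⟩, ⟨E, [nt E, nt E]⟩, ⟨E, [tm a, nt F, tm c]⟩,
    ⟨F, [nt E, tm b, nt F, tm b, nt E]⟩, ⟨F, [nt E, tm c, nt E, tm a, nt E]⟩,
    ⟨E', []⟩, ⟨E', [nt E', nt E']⟩, ⟨E', [tm c, nt F', tm a]⟩,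
    ⟨F', [nt E', tm b, nt F', tm b, nt E']⟩, ⟨F', [nt E', tm a, nt E', tm c, nt E']⟩]

/-- The grammar. -/
def gram : ContextFreeGrammar (Option Let3) := ⟨NT5, W, ruleList.toFinset⟩

theorem mem_rules {r : ContextFreeRule (Option Let3) NT5} : r ∈ gram.rules ↔ r ∈ ruleList :=
  List.mem_toFinset

/-- Embedding of words. -/
def emb (x : List Let3) : List (Option Let3) := x.map some

theorem emb_append (x y : List Let3) : emb (x ++ y) = emb x ++ emb y := by simp [emb]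

theorem emb_cons (x : Let3) (y : List Let3) : emb (x :: y) = some x :: emb y := by simp [emb]

theorem emb_nil : emb [] = [] := rfl

/-- The interpretation of the nonterminals. -/
def interp : NT5 → Language (Option Let3)
  | W => {w | ∃ u v, (∀ s, Irr s → run u s = run v s) ∧ w = emb u ++ none :: (emb v).reverse}
  | E => {w | ∃ x, Triv x ∧ w = emb x}
  | F => {w | ∃ x, MidW x ∧ w = emb x}
  | E' => {w | ∃ x, Triv x ∧ w = (emb x).reverse}
  | F' => {w | ∃ x, MidW x ∧ w = (emb x).reverse}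

theorem interp_sound : ∀ r ∈ ruleList, ∀ w : List (Option Let3), w ∈ ext interp r.output →
    w ∈ interp r.input := by
  intro r hr
  simp only [ruleList, mem_cons, not_mem_nil, or_false] at hr
  rcases hr with rfl | rfl | rfl | rfl | rfl | rfl | rfl | rfl | rfl | rfl | rfl | rfl | rfl |
    rfl | rfl | rfl
  · intro w hw
    simp only [sep, mem_ext_terminal, mem_ext_nil] at hw
    obtain ⟨y, rfl, rfl⟩ := hw
    exact ⟨[], [], fun _ _ => rfl, rfl⟩
  · intro w hw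
    simp only [nt, mem_ext_nonterminal, mem_ext_nil] at hw
    obtain ⟨p, ⟨e, he, rfl⟩, q, ⟨q', ⟨u, v, huv, rfl⟩, _, rfl, rfl⟩, rfl⟩ := hw
    refine ⟨e ++ u, v, fun s hs => ?_, by simp [emb_append]⟩
    rw [run_append, he _ (run_irr hs)]
    exact huv s hs
  · intro w hw
    simp only [nt, mem_ext_nonterminal, mem_ext_nil] at hw
    obtain ⟨p, ⟨u, v, huv, rfl⟩, q, ⟨q', ⟨e, he, rfl⟩, _, rfl, rfl⟩, rfl⟩ := hw
    refine ⟨u, e ++ v, fun s hs => ?_, by simp [emb_append]⟩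
    rw [run_append, he _ (run_irr hs)]
    exact huv s hs
  · intro w hw
    simp only [nt, tm, mem_ext_nonterminal, mem_ext_nil, mem_ext_terminal] at hw
    obtain ⟨_, ⟨_, ⟨u, v, huv, rfl⟩, _, ⟨_, rfl, rfl⟩, rfl⟩, rfl⟩ := hw
    refine ⟨a :: u, a :: v, fun s hs => ?_, by simp [emb_cons]⟩
    rw [run_cons, run_cons, huv s hs]
  · intro w hw
    simp only [nt, tm, mem_ext_nonterminal, mem_ext_nil, mem_ext_terminal] at hw
    obtain ⟨_, ⟨_, ⟨u, v, huv, rfl⟩, _, ⟨_, rfl, rfl⟩, rfl⟩, rfl⟩ := hw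
    refine ⟨b :: u, b :: v, fun s hs => ?_, by simp [emb_cons]⟩
    rw [run_cons, run_cons, huv s hs]
  · intro w hw
    simp only [nt, tm, mem_ext_nonterminal, mem_ext_nil, mem_ext_terminal] at hw
    obtain ⟨_, ⟨_, ⟨u, v, huv, rfl⟩, _, ⟨_, rfl, rfl⟩, rfl⟩, rfl⟩ := hw
    refine ⟨c :: u, c :: v, fun s hs => ?_, by simp [emb_cons]⟩
    rw [run_cons, run_cons, huv s hs]
  · intro w hw
    simp only [mem_ext_nil] at hw
    subst hw
    exact ⟨[], triv_nil, rfl⟩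
  · intro w hw
    simp only [nt, mem_ext_nonterminal, mem_ext_nil] at hw
    obtain ⟨_, ⟨x, hx, rfl⟩, _, ⟨_, ⟨y, hy, rfl⟩, _, rfl, rfl⟩, rfl⟩ := hw
    exact ⟨x ++ y, hx.append hy, by simp [emb_append]⟩
  · intro w hw
    simp only [nt, tm, mem_ext_nonterminal, mem_ext_nil, mem_ext_terminal] at hw
    obtain ⟨_, ⟨_, ⟨m, hm, rfl⟩, _, ⟨_, rfl, rfl⟩, rfl⟩, rfl⟩ := hw
    exact ⟨a :: (m ++ [c]), hm.wrap, by simp [emb_append, emb_cons, emb_nil]⟩
  · intro w hw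
    simp only [nt, tm, mem_ext_nonterminal, mem_ext_nil, mem_ext_terminal] at hw
    obtain ⟨_, ⟨x, hx, rfl⟩, _, ⟨_, ⟨_, ⟨m, hm, rfl⟩, _, ⟨_, ⟨_, ⟨z, hz, rfl⟩, _, rfl, rfl⟩, rfl⟩,
      rfl⟩, rfl⟩, rfl⟩ := hw
    exact ⟨x ++ b :: (m ++ b :: z), midW_step hx hm hz, by simp [emb_append, emb_cons]⟩
  · intro w hw
    simp only [nt, tm, mem_ext_nonterminal, mem_ext_nil, mem_ext_terminal] at hw
    obtain ⟨_, ⟨x, hx, rfl⟩, _, ⟨_, ⟨_, ⟨m, hm, rfl⟩, _, ⟨_, ⟨_, ⟨z, hz, rfl⟩, _, rfl, rfl⟩, rfl⟩,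
      rfl⟩, rfl⟩, rfl⟩ := hw
    exact ⟨x ++ c :: (m ++ a :: z), midW_base hx hm hz, by simp [emb_append, emb_cons]⟩
  · intro w hw
    simp only [mem_ext_nil] at hw
    subst hw
    exact ⟨[], triv_nil, rfl⟩
  · intro w hw
    simp only [nt, mem_ext_nonterminal, mem_ext_nil] at hw
    obtain ⟨_, ⟨x, hx, rfl⟩, _, ⟨_, ⟨y, hy, rfl⟩, _, rfl, rfl⟩, rfl⟩ := hw
    exact ⟨y ++ x, hy.append hx, by simp [emb_append]⟩
  · intro w hw
    simp only [nt, tm, mem_ext_nonterminal, mem_ext_nil, mem_ext_terminal] at hw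
    obtain ⟨_, ⟨_, ⟨m, hm, rfl⟩, _, ⟨_, rfl, rfl⟩, rfl⟩, rfl⟩ := hw
    exact ⟨a :: (m ++ [c]), hm.wrap, by simp [emb_append, emb_cons, emb_nil]⟩
  · intro w hw
    simp only [nt, tm, mem_ext_nonterminal, mem_ext_nil, mem_ext_terminal] at hw
    obtain ⟨_, ⟨x, hx, rfl⟩, _, ⟨_, ⟨_, ⟨m, hm, rfl⟩, _, ⟨_, ⟨_, ⟨z, hz, rfl⟩, _, rfl, rfl⟩, rfl⟩,
      rfl⟩, rfl⟩, rfl⟩ := hw
    exact ⟨z ++ b :: (m ++ b :: x), midW_step hz hm hx, by simp [emb_append, emb_cons]⟩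
  · intro w hw
    simp only [nt, tm, mem_ext_nonterminal, mem_ext_nil, mem_ext_terminal] at hw
    obtain ⟨_, ⟨x, hx, rfl⟩, _, ⟨_, ⟨_, ⟨m, hm, rfl⟩, _, ⟨_, ⟨_, ⟨z, hz, rfl⟩, _, rfl, rfl⟩, rfl⟩,
      rfl⟩, rfl⟩, rfl⟩ := hw
    exact ⟨z ++ c :: (m ++ a :: x), midW_base hz hm hx, by simp [emb_append, emb_cons]⟩

/-! ### Completeness -/

/-- The language derived from a nonterminal of the grammar. -/
def D (n : NT5) : Language (Option Let3) := der gram n

theorem D_closed {r : ContextFreeRule (Option Let3) NT5} (hr : r ∈ ruleList)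
    {x : List (Option Let3)} (hx : x ∈ ext D r.output) : x ∈ D r.input :=
  der_closed gram (r := r) (mem_rules.2 hr) hx

/-- Derivable trivial words. -/
def PE (x : List Let3) : Prop := emb x ∈ D E ∧ (emb x).reverse ∈ D E'

/-- Derivable middle words. -/
def QF (x : List Let3) : Prop := emb x ∈ D F ∧ (emb x).reverse ∈ D F'

theorem pe_nil : PE [] :=
  ⟨D_closed (r := ⟨E, []⟩) (by simp [ruleList]) (by simp [mem_ext_nil, emb_nil]),
    D_closed (r := ⟨E', []⟩) (by simp [ruleList]) (by simp [mem_ext_nil, emb_nil])⟩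

theorem pe_append (x y : List Let3) (hx : PE x) (hy : PE y) : PE (x ++ y) := by
  refine ⟨D_closed (r := ⟨E, [nt E, nt E]⟩) (by simp [ruleList]) ?_,
    D_closed (r := ⟨E', [nt E', nt E']⟩) (by simp [ruleList]) ?_⟩
  · simp only [nt, mem_ext_nonterminal, mem_ext_nil]
    exact ⟨emb x, hx.1, emb y, ⟨emb y, hy.1, [], rfl, by simp⟩, by simp [emb_append]⟩
  · simp only [nt, mem_ext_nonterminal, mem_ext_nil]
    exact ⟨(emb y).reverse, hy.2, (emb x).reverse, ⟨(emb x).reverse, hx.2, [], rfl, by simp⟩,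
      by simp [emb_append]⟩

theorem pe_wrap (m : List Let3) (hm : QF m) : PE (a :: (m ++ [c])) := by
  refine ⟨D_closed (r := ⟨E, [tm a, nt F, tm c]⟩) (by simp [ruleList]) ?_,
    D_closed (r := ⟨E', [tm c, nt F', tm a]⟩) (by simp [ruleList]) ?_⟩
  · simp only [nt, tm, mem_ext_nonterminal, mem_ext_nil, mem_ext_terminal]
    exact ⟨_, ⟨_, hm.1, _, ⟨_, rfl, rfl⟩, rfl⟩, by simp [emb_append, emb_cons, emb_nil]⟩
  · simp only [nt, tm, mem_ext_nonterminal, mem_ext_nil, mem_ext_terminal]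
    exact ⟨_, ⟨_, hm.2, _, ⟨_, rfl, rfl⟩, rfl⟩, by simp [emb_append, emb_cons, emb_nil]⟩

theorem qf_base (x y z : List Let3) (hx : PE x) (hy : PE y) (hz : PE z) :
    QF (x ++ c :: (y ++ a :: z)) := by
  refine ⟨D_closed (r := ⟨F, [nt E, tm c, nt E, tm a, nt E]⟩) (by simp [ruleList]) ?_,
    D_closed (r := ⟨F', [nt E', tm a, nt E', tm c, nt E']⟩) (by simp [ruleList]) ?_⟩
  · simp only [nt, tm, mem_ext_nonterminal, mem_ext_nil, mem_ext_terminal]
    exact ⟨_, hx.1, _, ⟨_, ⟨_, hy.1, _, ⟨_, ⟨_, hz.1, _, rfl, rfl⟩, rfl⟩, rfl⟩, rfl⟩,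
      by simp [emb_append, emb_cons]⟩
  · simp only [nt, tm, mem_ext_nonterminal, mem_ext_nil, mem_ext_terminal]
    exact ⟨_, hz.2, _, ⟨_, ⟨_, hy.2, _, ⟨_, ⟨_, hx.2, _, rfl, rfl⟩, rfl⟩, rfl⟩, rfl⟩,
      by simp [emb_append, emb_cons]⟩

theorem qf_step (x m z : List Let3) (hx : PE x) (hm : QF m) (hz : PE z) :
    QF (x ++ b :: (m ++ b :: z)) := by
  refine ⟨D_closed (r := ⟨F, [nt E, tm b, nt F, tm b, nt E]⟩) (by simp [ruleList]) ?_,
    D_closed (r := ⟨F', [nt E', tm b, nt F', tm b, nt E']⟩) (by simp [ruleList]) ?_⟩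
  · simp only [nt, tm, mem_ext_nonterminal, mem_ext_nil, mem_ext_terminal]
    exact ⟨_, hx.1, _, ⟨_, ⟨_, hm.1, _, ⟨_, ⟨_, hz.1, _, rfl, rfl⟩, rfl⟩, rfl⟩, rfl⟩,
      by simp [emb_append, emb_cons]⟩
  · simp only [nt, tm, mem_ext_nonterminal, mem_ext_nil, mem_ext_terminal]
    exact ⟨_, hz.2, _, ⟨_, ⟨_, hm.2, _, ⟨_, ⟨_, hx.2, _, rfl, rfl⟩, rfl⟩, rfl⟩, rfl⟩,
      by simp [emb_append, emb_cons]⟩

theorem w_left {e : List Let3} (he : PE e) {w : List (Option Let3)} (hw : w ∈ D W) :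
    emb e ++ w ∈ D W := by
  refine D_closed (r := ⟨W, [nt E, nt W]⟩) (by simp [ruleList]) ?_
  simp only [nt, mem_ext_nonterminal, mem_ext_nil]
  exact ⟨_, he.1, _, ⟨_, hw, _, rfl, rfl⟩, by simp⟩

theorem w_right {e : List Let3} (he : PE e) {w : List (Option Let3)} (hw : w ∈ D W) :
    w ++ (emb e).reverse ∈ D W := by
  refine D_closed (r := ⟨W, [nt W, nt E']⟩) (by simp [ruleList]) ?_
  simp only [nt, mem_ext_nonterminal, mem_ext_nil]
  exact ⟨_, hw, _, ⟨_, he.2, _, rfl, rfl⟩, by simp⟩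

theorem w_wrap (l : Let3) {w : List (Option Let3)} (hw : w ∈ D W) :
    some l :: (w ++ [some l]) ∈ D W := by
  have hmem : (⟨W, [tm l, nt W, tm l]⟩ : ContextFreeRule (Option Let3) NT5) ∈ ruleList := by
    cases l <;> simp [ruleList]
  refine D_closed hmem ?_
  simp only [nt, tm, mem_ext_nonterminal, mem_ext_nil, mem_ext_terminal]
  exact ⟨_, ⟨_, hw, _, ⟨_, rfl, rfl⟩, rfl⟩, rfl⟩

theorem w_sep : [none] ∈ D W := by
  refine D_closed (r := ⟨W, [sep]⟩) (by simp [ruleList]) ?_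
  simp only [sep, mem_ext_terminal, mem_ext_nil]
  exact ⟨[], rfl, rfl⟩

theorem w_of_ins {z x y : List Let3} (hx : Ins PE z x) (hy : Ins PE z y) :
    emb x ++ none :: (emb y).reverse ∈ D W := by
  induction hx generalizing y with
  | nil h =>
    cases hy with
    | nil h' =>
      have h1 := w_right h' (w_left h w_sep)
      simpa using h1
  | @cons e x z l h hx ih =>
    cases hy with
    | cons h' hy =>
      have h1 := w_right h' (w_left h (w_wrap l (ih hy)))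
      simpa [emb_append, emb_cons] using h1

theorem ins_pe (x : List Let3) : Ins PE (run x []) x :=
  ins_nf (P := PE) (Q := QF) pe_nil pe_append pe_wrap qf_base qf_step x

/-- The language of the grammar is the word problem. -/
theorem mem_language (w : List (Option Let3)) :
    w ∈ gram.language ↔
      ∃ u v, (∀ s, Irr s → run u s = run v s) ∧ w = emb u ++ none :: (emb v).reverse := by
  constructor
  · intro hw
    have h := sound gram interp (fun r hr w hw => interp_sound r (mem_rules.1 hr) w hw)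
      (n := W) hw
    exact h
  · rintro ⟨u, v, huv, rfl⟩
    have h1 := ins_pe u
    have h2 := ins_pe v
    rw [← huv [] irr_nil] at h2
    exact w_of_ins h1 h2

end Pool.Agent.L7h7.CFUnits
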